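import Pool.Agent.Helper465_CycSat.Free

namespace Pool.Agent.Results.MP_7875f2_co.SmallerSaturated

open Pool.Agent.Helper465CycSat

/-- The arithmetic of the optimal choice `r = ⌊l/2⌋`, `s = ⌈l/2⌉`. -/
theorem arith (l : ℕ) : l / 2 * l + (l - l / 2) * (l - l / 2) + l ^ 2 / 4 = l ^ 2 := by
  obtain ⟨m, hm | hm⟩ : ∃ m, l = 2 * m ∨ l = 2 * m + 1 := ⟨l / 2, by omega⟩
  · subst hm
    have e1 : 2 * m / 2 = m := by omega
    have e2 : 2 * m - m = m := by omega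
    have e3 : (2 * m) ^ 2 / 4 = m ^ 2 := by
      have : (2 * m) ^ 2 = m ^ 2 * 4 := by ring
      rw [this]
      exact Nat.mul_div_cancel _ (by norm_num)
    rw [e1, e2, e3]
    ring
  · subst hm
    have e1 : (2 * m + 1) / 2 = m := by omega
    have e2 : 2 * m + 1 - m = m + 1 := by omega
    have e3 : (2 * m + 1) ^ 2 / 4 = m ^ 2 + m := by
      have : (2 * m + 1) ^ 2 = (m ^ 2 + m) * 4 + 1 := by ring
      rw [this]
      omega
    rw [e1, e2, e3]
    ring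

/-- For all `l ≥ 4` and `n1, n2 ≥ l` there is a `C_{2l}`-saturated subgraph of `K_{n1,n2}` with at
most `n1 + n2 + l^2 - 2 l - ⌊l^2/4⌋` edges; hence `sat(K_{n1,n2}, C_{2l})` is smaller than
`n1 + n2 + l^2 - 3 l + 1`, in particular for all `n1, n2 ≥ l + 2`. -/
theorem result (l n1 n2 : ℕ) (hl : 4 ≤ l) (h1 : l ≤ n1) (h2 : l ≤ n2) :
    (∃ H : SimpleGraph (Fin n1 ⊕ Fin n2),
      IsCycleSaturated (completeBipartiteGraph (Fin n1) (Fin n2)) H (2 * l) ∧
        H.edgeSet.ncard + 2 * l + l ^ 2 / 4 ≤ n1 + n2 + l ^ 2) ∧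
    satNum (completeBipartiteGraph (Fin n1) (Fin n2)) (2 * l) < n1 + n2 + l ^ 2 - 3 * l + 1 := by
  obtain ⟨r, s, hr, hs, hrs, hr'⟩ : ∃ r s, 2 ≤ r ∧ 2 ≤ s ∧ r + s = l ∧ r = l / 2 :=
    ⟨l / 2, l - l / 2, by omega, by omega, by omega, rfl⟩
  have hs' : s = l - l / 2 := by omega
  have ha := arith l
  rw [← hr', ← (by omega : s = l - r)] at ha
  have key : (gr r (r + s) n1 n2).edgeSet.ncard + 2 * l + l ^ 2 / 4 ≤ n1 + n2 + l ^ 2 := by
    have he := edges_le (r := r) (s := s) (n1 := n1) (n2 := n2) (by omega) (by omega) (by omega)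
    rw [hrs] at he ⊢
    omega
  have hsat := saturated (r := r) (s := s) (n1 := n1) (n2 := n2) hr hs (by omega) (by omega)
  refine ⟨⟨gr r (r + s) n1 n2, ?_, key⟩, ?_⟩
  · rw [hrs] at hsat ⊢
    exact hsat
  · have hle : satNum (completeBipartiteGraph (Fin n1) (Fin n2)) (2 * l) ≤
        (gr r (r + s) n1 n2).edgeSet.ncard := by
      rw [hrs] at hsat ⊢
      exact Nat.sInf_le ⟨_, hsat, rfl⟩
    have hq : l ≤ l ^ 2 / 4 := by
      rw [Nat.le_div_iff_mul_le (by norm_num)]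
      nlinarith
    have hq2 : 3 * l ≤ l ^ 2 := by nlinarith
    omega

end Pool.Agent.Results.MP_7875f2_co.SmallerSaturated
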